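import Pool.Agent.Helper20.FIVE.Plane

/-!
# Five normals in general position: the two circuits

A bounded polytope with five facets in general position lies in exactly two simplices spanned by four of its facet
planes; they have three planes in common.
-/

set_option autoImplicit false

namespace Pool.Agent.Helper24.FV

open Matrix
open Pool.Agent.Helper20.FIVE

/-- **The second circuit.** A positive relation without `d` gives one without some `e ≠ d`. -/
theorem second_rel {n : Fin 5 → Fin 3 → ℝ} (hn : Gen n) (d : Fin 5) (a : Fin 5 → ℝ) (had : a d = 0)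
    (ha : ∀ i, i ≠ d → 0 < a i) (hrel : ∑ i, a i • n i = 0) :
    ∃ (e : Fin 5) (a' : Fin 5 → ℝ), e ≠ d ∧ a' e = 0 ∧ (∀ i, i ≠ e → 0 < a' i) ∧ ∑ i, a' i • n i = 0 := by
  classical
  -- a relation with coefficient one at `d`
  obtain ⟨r, hrd, hr⟩ : ∃ r : Fin 5 → ℝ, r d = 1 ∧ ∑ i, r i • n i = 0 := by
    have hne : ∃ q : Fin 5, q ≠ d := ⟨d + 1, by omega⟩
    obtain ⟨q, hq⟩ := hne
    obtain ⟨i, j, k, hij, hjk, hik, hip, hiq, hjp, hjq, hkp, hkq, hall⟩ := others d q hq.symm
    obtain ⟨c, hc⟩ := span3 _ _ _ (hn i j k hij hjk hik) (-n d)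
    refine ⟨fun x => if x = d then 1 else if x = i then c 0 else if x = j then c 1 else if x = k then c 2 else 0,
      by simp, ?_⟩
    have huniv : (Finset.univ : Finset (Fin 5)) = {d, q, i, j, k} := by
      ext x
      simpa using hall x
    rw [huniv, Finset.sum_insert (by simp [hq.symm, hip.symm, hjp.symm, hkp.symm]),
      Finset.sum_insert (by simp [hiq.symm, hjq.symm, hkq.symm]), Finset.sum_insert (by simp [hij, hik]),
      Finset.sum_insert (by simp [hjk]), Finset.sum_singleton]
    simp only [if_true, hq, if_false, hiq.symm, hjq.symm, hkq.symm, hip, hjp, hkp, hij.symm, hik.symm, hjk.symm]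
    rw [one_smul, zero_smul, zero_add, ← add_assoc (c 0 • n i), hc, add_neg_cancel]
  -- the largest admissible shift
  have hne : (Finset.univ.filter fun i : Fin 5 => i ≠ d).Nonempty := ⟨d + 1, by
    simp only [Finset.mem_filter, Finset.mem_univ, true_and]
    omega⟩
  obtain ⟨e, he, hmax⟩ := Finset.exists_max_image _ (fun i => -r i / a i) hne
  have hed : e ≠ d := (Finset.mem_filter.1 he).2
  have hae := ha e hed
  refine ⟨e, fun i => r i + (-r e / a e) * a i, hed, ?_, ?_, ?_⟩
  · field_simp
    ring
  · have h0 : ∀ i, 0 ≤ r i + (-r e / a e) * a i := by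
      intro i
      by_cases hi : i = d
      · rw [hi, had, hrd]
        norm_num
      · have h1 := hmax i (Finset.mem_filter.2 ⟨Finset.mem_univ _, hi⟩)
        have h2 := ha i hi
        have h3 := mul_le_mul_of_nonneg_right h1 h2.le
        rw [div_mul_cancel₀ _ h2.ne'] at h3
        linarith
    intro i hi
    refine lt_of_le_of_ne (h0 i) fun h => ?_
    have h1 : (fun i => r i + (-r e / a e) * a i) = (0 : Fin 5 → ℝ) := by
      refine rel_zero hn _ ?_ i e hi h.symm ?_
      · simp only [add_smul, mul_smul, Finset.sum_add_distrib]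
        rw [hr, ← Finset.smul_sum, hrel, smul_zero, add_zero]
      · field_simp
        ring
    have h2 := congrFun h1 d
    simp only [had, hrd, mul_zero, add_zero, Pi.zero_apply] at h2
    exact one_ne_zero h2
  · simp only [add_smul, mul_smul, Finset.sum_add_distrib]
    rw [hr, ← Finset.smul_sum, hrel, smul_zero, add_zero]

end Pool.Agent.Helper24.FV
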