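import Pool.Agent.Helper24.FV.Two
import Pool.Agent.Helper20.FIVE.Core
import Pool.Agent.Helper20.PS.Two

/-!
# Polytopes with at most five facets: the two circuits
-/

set_option autoImplicit false

namespace Pool.Agent.Helper24.FV

open Matrix
open Pool.Agent.Helper20.FIVE
open Pool.Agent.Helper12.LW (LFree toR)
open Pool.Agent.Helper84.FL (WidthLe)
open Pool.Agent.Helper20.PS (Two)

/-- **Five facets, two circuits.** -/
theorem exists_input (n : Fin 5 → Fin 3 → ℝ) (b : Fin 5 → ℝ) (hcomp : IsCompact (Half n b))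
    (hint : (interior (Half n b)).Nonempty) (hfree : ∀ z : Fin 3 → ℤ, toR z ∉ interior (Half n b))
    (W : ℝ) (hW0 : 0 < W) (hW : ¬ WidthLe (Half n b) W) :
    ∃ (K : Set (Fin 3 → ℝ)) (g : Fin 4 → Fin 3 → ℝ) (b' : Fin 4 → ℝ) (μ : Fin 3 → ℝ), Two K W g b' μ := by
  classical
  obtain ⟨p, hp⟩ := hint
  have hpK := interior_subset hp
  obtain ⟨β, hβ⟩ : ∃ β : Fin 5 → ℝ, β = fun i => if n i = 0 then 1 else b i - n i ⬝ᵥ p := ⟨_, rfl⟩
  have hβ0 : ∀ i, 0 < β i := by
    intro i
    rw [hβ]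
    simp only
    split_ifs with hi
    · exact one_pos
    · linarith [lt_of_interior hp i hi]
  have heq : Pol n p β = Half n b := by
    ext x
    have h1 : ∀ i, (n i ⬝ᵥ (x - p) ≤ β i ↔ n i ⬝ᵥ x ≤ b i) := by
      intro i
      rw [hβ]
      simp only
      split_ifs with hi
      · rw [hi, zero_dotProduct, zero_dotProduct]
        have h2 := hpK i
        rw [hi, zero_dotProduct] at h2
        exact ⟨fun _ => h2, fun _ => zero_le_one⟩
      · rw [dotProduct_sub]
        constructor <;> intro h <;> linarith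
    exact forall_congr' h1
  obtain ⟨η, β', hη, hβ', hsh⟩ := shrink n p β hβ0 (by rw [heq]; exact hcomp) W hW0 (by
    intro r hr
    rw [heq]
    exact wide_of_not hW r hr)
  obtain ⟨n', hn', hgen⟩ := Pool.Agent.Helper21.FIVE.exists_generic n η hη
  obtain ⟨h1, h2, h3⟩ := hsh n' hn'
  rw [heq] at h1
  have hpi : p ∈ interior (Pol n' p β') := Pol_interior n' p β' fun i => by
    rw [sub_self, dotProduct_zero]
    exact hβ' i
  have hLF : LFree (Pol n' p β') := ⟨h2, Pol_convex _ _ _, ⟨p, hpi⟩, fun z hz =>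
    hfree z (h1 (interior_subset hz))⟩
  obtain ⟨g, b0, μ, hg, hb, hspan, hμ, hK⟩ := exists_two hgen hβ' h2
  refine ⟨Pol n' p β', g, b0, μ, hLF, h3, hg, hb, hspan, hμ, fun j x hx => ((hK x).1 hx).1 j,
    fun x hx => ((hK x).1 hx).2, ?_⟩
  intro z
  by_contra hcon
  push Not at hcon
  exact hfree z (h1 ((hK (toR z)).2 ⟨fun j => (hcon.1 j).le, hcon.2.le⟩))

end Pool.Agent.Helper24.FV
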