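import Pool.Agent.Helper24.FV.Circ2

/-!
# Five normals in general position: the two circuits in normal form
-/

set_option autoImplicit false

namespace Pool.Agent.Helper24.FV

open Matrix
open Pool.Agent.Helper20.FIVE

/-- **Two circuits.** A bounded polytope with five facets in general position is a simplex `g k · x ≤ b k`
(`∑ g = 0`, `∑ b = 1`) cut by one more plane, which spans with the planes `1, 2, 3` another such simplex. -/
theorem exists_two {n : Fin 5 → Fin 3 → ℝ} {p : Fin 3 → ℝ} {β : Fin 5 → ℝ} (hn : Gen n)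
    (hβ : ∀ i, 0 < β i) (hcomp : IsCompact (Pol n p β)) :
    ∃ (g : Fin 4 → Fin 3 → ℝ) (b : Fin 4 → ℝ) (μ : Fin 3 → ℝ), ∑ j, g j = 0 ∧ ∑ j, b j = 1 ∧
      (∀ m : Fin 3 → ℝ, ∃ a : Fin 4 → ℝ, ∑ k, a k • g k = m) ∧ (∀ i, 0 < μ i) ∧
      ∀ x, x ∈ Pol n p β ↔ (∀ j, g j ⬝ᵥ x ≤ b j) ∧
        (-∑ i : Fin 3, μ i • g i.succ) ⬝ᵥ x ≤ 1 - ∑ i : Fin 3, μ i * b i.succ := by
  classical
  obtain ⟨d, l, hl, hlrel⟩ := exists_circ hn hβ hcomp
  obtain ⟨a, haa⟩ : ∃ a : Fin 5 → ℝ, a = fun i => if h : i = d then 0 else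
      l ((Fin.exists_succAbove_eq h).choose) := ⟨_, rfl⟩
  have had : a d = 0 := by rw [haa]; simp
  have hak : ∀ k, a (d.succAbove k) = l k := by
    intro k
    rw [haa]
    simp only
    have hne : d.succAbove k ≠ d := Fin.succAbove_ne d k
    rw [dif_neg hne]
    congr 1
    have h1 := (Fin.exists_succAbove_eq hne).choose_spec
    exact Fin.succAbove_right_injective h1
  have ha : ∀ i, i ≠ d → 0 < a i := by
    intro i hi
    obtain ⟨k, hk⟩ := Fin.exists_succAbove_eq hi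
    rw [← hk, hak]
    exact hl k
  have hrel : ∑ i, a i • n i = 0 := by
    rw [Fin.sum_univ_succAbove _ d, had, zero_smul, zero_add, ← hlrel]
    exact Finset.sum_congr rfl fun k _ => by rw [hak]
  obtain ⟨e, a', hed, hae', ha', hrel'⟩ := second_rel hn d a had ha hrel
  obtain ⟨i, j, k, hij, hjk, hik, hid, hie, hjd, hje, hkd, hke, hall⟩ := others d e hed.symm
  have huniv : (Finset.univ : Finset (Fin 5)) = {d, e, i, j, k} := by
    ext x
    simpa using hall x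
  have hsum5 : ∀ {M : Type} [AddCommMonoid M] (F : Fin 5 → M), ∑ x, F x = F d + (F e + (F i + (F j + F k))) := by
    intro M _ F
    rw [huniv, Finset.sum_insert (by simp [hed.symm, hid.symm, hjd.symm, hkd.symm]),
      Finset.sum_insert (by simp [hie.symm, hje.symm, hke.symm]), Finset.sum_insert (by simp [hij, hik]),
      Finset.sum_insert (by simp [hjk]), Finset.sum_singleton]
  obtain ⟨E, hE⟩ : ∃ E : Fin 4 → Fin 5, E = ![e, i, j, k] := ⟨_, rfl⟩
  have hE0 : E 0 = e := by rw [hE]; rfl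
  have hE1 : E 1 = i := by rw [hE]; rfl
  have hE2 : E 2 = j := by rw [hE]; rfl
  have hE3 : E 3 = k := by rw [hE]; rfl
  have hEd : ∀ q, E q ≠ d := by
    intro q
    fin_cases q
    · exact (hE0 ▸ hed : E 0 ≠ d)
    · exact (hE1 ▸ hid : E 1 ≠ d)
    · exact (hE2 ▸ hjd : E 2 ≠ d)
    · exact (hE3 ▸ hkd : E 3 ≠ d)
  have hEe : ∀ q : Fin 3, E q.succ ≠ e := by
    intro q
    fin_cases q
    · exact (hE1 ▸ hie : E 1 ≠ e)
    · exact (hE2 ▸ hje : E 2 ≠ e)
    · exact (hE3 ▸ hke : E 3 ≠ e)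
  have hEall : ∀ x, x = d ∨ ∃ q, x = E q := by
    intro x
    rcases hall x with h | h | h | h | h
    · exact Or.inl h
    · exact Or.inr ⟨0, by rw [hE0, h]⟩
    · exact Or.inr ⟨1, by rw [hE1, h]⟩
    · exact Or.inr ⟨2, by rw [hE2, h]⟩
    · exact Or.inr ⟨3, by rw [hE3, h]⟩
  -- the first simplex
  obtain ⟨T, hT⟩ : ∃ T : ℝ, T = ∑ q, a (E q) * β (E q) := ⟨_, rfl⟩
  have hT0 : 0 < T := by
    rw [hT]
    exact Finset.sum_pos (fun q _ => mul_pos (ha _ (hEd q)) (hβ _)) Finset.univ_nonempty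
  obtain ⟨g, hg⟩ : ∃ g : Fin 4 → Fin 3 → ℝ, g = fun q => (a (E q) / T) • n (E q) := ⟨_, rfl⟩
  obtain ⟨b, hb⟩ : ∃ b : Fin 4 → ℝ, b = fun q => a (E q) / T * β (E q) + g q ⬝ᵥ p := ⟨_, rfl⟩
  have hgq : ∀ q, g q = (a (E q) / T) • n (E q) := fun q => by rw [hg]
  have hbq : ∀ q, b q = a (E q) / T * β (E q) + g q ⬝ᵥ p := fun q => by rw [hb]
  have hlT : ∀ q, 0 < a (E q) / T := fun q => div_pos (ha _ (hEd q)) hT0
  have hgsum : ∑ q, g q = 0 := by
    have h1 : ∑ q, g q = T⁻¹ • ∑ q, a (E q) • n (E q) := by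
      rw [Finset.smul_sum]
      refine Finset.sum_congr rfl fun q _ => ?_
      rw [hgq, smul_smul, div_eq_inv_mul]
    have h2 : ∑ q, a (E q) • n (E q) = 0 := by
      rw [Fin.sum_univ_four, hE0, hE1, hE2, hE3]
      have h3 := hrel
      rw [hsum5, had, zero_smul, zero_add] at h3
      rw [← h3]
      abel
    rw [h1, h2, smul_zero]
  have hgp : ∑ q, g q ⬝ᵥ p = 0 := by
    have h1 := sum_dotProduct Finset.univ g p
    rw [hgsum, zero_dotProduct] at h1
    exact h1.symm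
  have hbsum : ∑ q, b q = 1 := by
    simp only [hbq, Finset.sum_add_distrib, hgp, add_zero]
    have h1 : ∑ q, a (E q) / T * β (E q) = (∑ q, a (E q) * β (E q)) / T := by
      rw [Finset.sum_div]
      exact Finset.sum_congr rfl fun q _ => by ring
    rw [h1, ← hT, div_self hT0.ne']
  have hspan : ∀ m : Fin 3 → ℝ, ∃ a : Fin 4 → ℝ, ∑ q, a q • g q = m := by
    intro m
    obtain ⟨c, hc⟩ := span3 _ _ _ (hn e i j hie.symm hij hje.symm) m
    refine ⟨![c 0 / (a e / T), c 1 / (a i / T), c 2 / (a j / T), 0], ?_⟩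
    have h0 := (hlT 0).ne'
    have h1 := (hlT 1).ne'
    have h2 := (hlT 2).ne'
    rw [hE0] at h0
    rw [hE1] at h1
    rw [hE2] at h2
    rw [Fin.sum_univ_four]
    simp only [Matrix.cons_val_zero, Matrix.cons_val_one, Matrix.cons_val, hgq, smul_smul, hE0, hE1, hE2]
    rw [div_mul_cancel₀ _ h0, div_mul_cancel₀ _ h1, div_mul_cancel₀ _ h2, zero_mul, zero_smul, add_zero]
    exact hc
  -- the second simplex
  obtain ⟨T', hT'⟩ : ∃ T' : ℝ, T' = a' d * β d + ∑ q : Fin 3, a' (E q.succ) * β (E q.succ) := ⟨_, rfl⟩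
  have had' : 0 < a' d := ha' d hed.symm
  have hT0' : 0 < T' := by
    rw [hT']
    have h1 := mul_pos had' (hβ d)
    have h2 : 0 ≤ ∑ q : Fin 3, a' (E q.succ) * β (E q.succ) :=
      Finset.sum_nonneg fun q _ => (mul_pos (ha' _ (hEe q)) (hβ _)).le
    linarith
  obtain ⟨μ, hμ⟩ : ∃ μ : Fin 3 → ℝ, μ = fun q => (a' (E q.succ) / T') / (a (E q.succ) / T) := ⟨_, rfl⟩
  have hμq : ∀ q, μ q = (a' (E q.succ) / T') / (a (E q.succ) / T) := fun q => by rw [hμ]
  have hμ0 : ∀ q, 0 < μ q := fun q => by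
    rw [hμq]
    exact div_pos (div_pos (ha' _ (hEe q)) hT0') (hlT _)
  have hμg : ∀ q, μ q • g q.succ = (a' (E q.succ) / T') • n (E q.succ) := by
    intro q
    rw [hμq, hgq, smul_smul, div_mul_cancel₀ _ (hlT _).ne']
  have hvD : -∑ q : Fin 3, μ q • g q.succ = (a' d / T') • n d := by
    have h1 : ∑ q : Fin 3, μ q • g q.succ = T'⁻¹ • ∑ q : Fin 3, a' (E q.succ) • n (E q.succ) := by
      rw [Finset.smul_sum]
      refine Finset.sum_congr rfl fun q _ => ?_
      rw [hμg, smul_smul, div_eq_inv_mul]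
    have h2 : ∑ q : Fin 3, a' (E q.succ) • n (E q.succ) = -(a' d • n d) := by
      rw [Fin.sum_univ_three]
      show a' (E 1) • n (E 1) + a' (E 2) • n (E 2) + a' (E 3) • n (E 3) = _
      rw [hE1, hE2, hE3]
      have h3 := hrel'
      rw [hsum5, hae', zero_smul, zero_add] at h3
      rw [eq_neg_iff_add_eq_zero, ← h3]
      abel
    rw [h1, h2, smul_neg, neg_neg, smul_smul, div_eq_inv_mul]
  have hbD : 1 - ∑ q : Fin 3, μ q * b q.succ = a' d / T' * β d + ((a' d / T') • n d) ⬝ᵥ p := by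
    have h1 : ∀ q : Fin 3, μ q * b q.succ = a' (E q.succ) / T' * β (E q.succ) + (μ q • g q.succ) ⬝ᵥ p := by
      intro q
      rw [hbq, smul_dotProduct, smul_eq_mul, mul_add]
      congr 1
      rw [← mul_assoc, hμq, div_mul_cancel₀ _ (hlT _).ne']
    have h2 : ∑ q : Fin 3, (μ q • g q.succ) ⬝ᵥ p = -(((a' d / T') • n d) ⬝ᵥ p) := by
      rw [← hvD, neg_dotProduct, neg_neg, sum_dotProduct]
    have h3 : ∑ q : Fin 3, a' (E q.succ) / T' * β (E q.succ) = (T' - a' d * β d) / T' := by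
      rw [hT', add_sub_cancel_left, Finset.sum_div]
      exact Finset.sum_congr rfl fun q _ => by ring
    simp only [h1, Finset.sum_add_distrib]
    rw [h2, h3, sub_div, div_self hT0'.ne']
    ring
  refine ⟨g, b, μ, hgsum, hbsum, hspan, hμ0, fun x => ?_⟩
  have hfac : ∀ q, (n (E q) ⬝ᵥ (x - p) ≤ β (E q) ↔ g q ⬝ᵥ x ≤ b q) := by
    intro q
    have h1 : g q ⬝ᵥ x - g q ⬝ᵥ p = a (E q) / T * (n (E q) ⬝ᵥ (x - p)) := by
      rw [← dotProduct_sub, hgq, smul_dotProduct, smul_eq_mul]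
    have h2 := hbq q
    constructor
    · intro h
      have h3 := mul_le_mul_of_nonneg_left h (hlT q).le
      linarith
    · intro h
      have h3 : a (E q) / T * (n (E q) ⬝ᵥ (x - p)) ≤ a (E q) / T * β (E q) := by linarith
      exact le_of_mul_le_mul_left h3 (hlT q)
  have hD0 : 0 < a' d / T' := div_pos had' hT0'
  have hfd : (n d ⬝ᵥ (x - p) ≤ β d) ↔ ((a' d / T') • n d) ⬝ᵥ x ≤ a' d / T' * β d + ((a' d / T') • n d) ⬝ᵥ p := by
    have h1 : ((a' d / T') • n d) ⬝ᵥ x - ((a' d / T') • n d) ⬝ᵥ p = a' d / T' * (n d ⬝ᵥ (x - p)) := by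
      rw [← dotProduct_sub, smul_dotProduct, smul_eq_mul]
    constructor
    · intro h
      have h3 := mul_le_mul_of_nonneg_left h hD0.le
      linarith
    · intro h
      have h3 : a' d / T' * (n d ⬝ᵥ (x - p)) ≤ a' d / T' * β d := by linarith
      exact le_of_mul_le_mul_left h3 hD0
  rw [hvD, hbD]
  constructor
  · intro hx
    exact ⟨fun q => (hfac q).1 (hx (E q)), hfd.1 (hx d)⟩
  · rintro ⟨hx1, hx2⟩ y
    rcases hEall y with rfl | ⟨q, rfl⟩
    · exact hfd.2 hx2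
    · exact (hfac q).2 (hx1 q)

end Pool.Agent.Helper24.FV
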